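import Pool.Agent.H378R2.PT.Ana

set_option autoImplicit false
set_option maxHeartbeats 4000000

/-! # Frequency of record windows: numerical facts (helper61) -/

namespace Pool.Agent.K7.H61.RF

open Finset Filter
open Pool.Agent.H256R2.SC (ff)
open Pool.Agent.H378R2.PS (V1)

/-- `log(x / y) ≥ log x / 2` if `2 log y ≤ log x` -/
theorem half_log' {x y : ℝ} (hx : 0 < x) (hy : 0 < y) (h : 2 * Real.log y ≤ Real.log x) :
    Real.log x / 2 ≤ Real.log (x / y) := by
  rw [Real.log_div hx.ne' hy.ne']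
  linarith

/-- the inequalities, in terms of `l1 = log X` -/
theorem ana1 (A B : ℕ) (D K c y₀ : ℝ) (hc : 0 < c) (hK : 0 < K) : ∀ᶠ l1 : ℝ in atTop,
    ∀ l2 l3 l4 y : ℝ, l2 = Real.log l1 → l3 = Real.log l2 → l4 = Real.log l3 → y = l1 / l2 ^ (B + 1) →
    ∀ W : ℕ, W = ⌊l1 * l2 ^ A⌋₊ →
    (100 ≤ l1 ∧ 100 ≤ l2 ∧ 100 ≤ l3 ∧ 100 ≤ l4 ∧ y₀ ≤ y ∧ 5 ≤ y) ∧
    (y ≤ ((2 * W : ℕ) : ℝ) ∧ ((2 * W : ℕ) : ℝ) ≤ y * (Real.log y) ^ (A + B + 3)) ∧
    (∀ t : ℝ, t ≤ c / (8 * K) * (l1 * l2 ^ 2 * l4 / l3 ^ 2) → t * (K * (Real.log (Real.log y)) ^ 2 /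
        ((Real.log y) ^ 2 * Real.log (Real.log (Real.log y)))) ≤ c * l1) ∧
    (2 ≤ V1 y ∧ D ≤ V1 y ∧ 1 ≤ Real.log (Real.log y) ∧ 1 ≤ Real.log (Real.log (Real.log y)) ∧
      V1 y ≤ Real.log y) ∧
    ((2 * W : ℕ) : ℝ) < l1 ^ (1 + 1 / 8 : ℝ) ∧ 4 * (W : ℝ) ≤ l1 ^ 2 := by
  have t1 := Real.tendsto_log_atTop
  have t2 : Tendsto (fun x : ℝ => Real.log (Real.log x)) atTop atTop := t1.comp t1
  have t3 : Tendsto (fun x : ℝ => Real.log (Real.log (Real.log x))) atTop atTop := t1.comp t2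
  have h1 : ∀ᶠ x : ℝ in atTop, 2 * ((B + 1 : ℕ) : ℝ) * Real.log x ≤ x := by
    have h := (Real.isLittleO_log_id_atTop).def (show (0 : ℝ) < 1 / (2 * ((B + 1 : ℕ) : ℝ)) by positivity)
    filter_upwards [h, eventually_ge_atTop 1] with x hx hx1
    rw [Real.norm_eq_abs, Real.norm_eq_abs, abs_of_nonneg (Real.log_nonneg hx1)] at hx
    simp only [id] at hx
    rw [abs_of_nonneg (show (0 : ℝ) ≤ x by linarith)] at hx
    have h2 : (0 : ℝ) < 2 * ((B + 1 : ℕ) : ℝ) := by positivity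
    calc 2 * ((B + 1 : ℕ) : ℝ) * Real.log x ≤ 2 * ((B + 1 : ℕ) : ℝ) * (1 / (2 * ((B + 1 : ℕ) : ℝ)) * x) :=
          mul_le_mul_of_nonneg_left hx h2.le
      _ = x := by field_simp
  have h2 : ∀ᶠ x : ℝ in atTop, 2 * (Real.log x) ^ A + 1 ≤ x ^ (1 / 8 : ℝ) := by
    have h := (isLittleO_log_rpow_rpow_atTop (A : ℝ) (show (0 : ℝ) < 1 / 8 by norm_num)).def
      (show (0 : ℝ) < 1 / 4 by norm_num)
    have h' : ∀ᶠ x : ℝ in atTop, 2 ≤ x ^ (1 / 8 : ℝ) :=
      (tendsto_rpow_atTop (by norm_num : (0:ℝ) < 1 / 8)).eventually_ge_atTop _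
    filter_upwards [h, h', eventually_ge_atTop 1] with x hx hx' hx1
    have h3 : 0 ≤ Real.log x := Real.log_nonneg hx1
    rw [Real.norm_eq_abs, Real.norm_eq_abs, Real.rpow_natCast, abs_of_nonneg (pow_nonneg h3 _),
      abs_of_nonneg (by linarith)] at hx
    linarith
  have h3 : ∀ᶠ x : ℝ in atTop, (y₀ + 5) * (Real.log x) ^ (B + 1) ≤ x := by
    have h := (Real.isLittleO_pow_log_id_atTop (n := B + 1)).def
      (show (0 : ℝ) < 1 / (|y₀| + 5) by positivity)
    filter_upwards [h, eventually_ge_atTop 1] with x hx hx1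
    have h3 : 0 ≤ Real.log x := Real.log_nonneg hx1
    rw [Real.norm_eq_abs, Real.norm_eq_abs, abs_of_nonneg (pow_nonneg h3 _)] at hx
    simp only [id] at hx
    rw [abs_of_nonneg (show (0 : ℝ) ≤ x by linarith)] at hx
    have h4 : y₀ + 5 ≤ |y₀| + 5 := by linarith [le_abs_self y₀]
    calc (y₀ + 5) * (Real.log x) ^ (B + 1) ≤ (|y₀| + 5) * (Real.log x) ^ (B + 1) :=
          mul_le_mul_of_nonneg_right h4 (pow_nonneg h3 _)
      _ ≤ (|y₀| + 5) * (1 / (|y₀| + 5) * x) := mul_le_mul_of_nonneg_left hx (by positivity)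
      _ = x := by
          have : |y₀| + 5 ≠ 0 := by positivity
          field_simp
  -- `l2 * l4 / l3` is large
  have h4 : ∀ᶠ x : ℝ in atTop, 80 * (|D| + 2) * Real.log x ≤ x := by
    have h := (Real.isLittleO_log_id_atTop).def (show (0 : ℝ) < 1 / (80 * (|D| + 2)) by positivity)
    filter_upwards [h, eventually_ge_atTop 1] with x hx hx1
    rw [Real.norm_eq_abs, Real.norm_eq_abs, abs_of_nonneg (Real.log_nonneg hx1)] at hx
    simp only [id] at hx
    rw [abs_of_nonneg (show (0 : ℝ) ≤ x by linarith)] at hx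
    have h2 : (0 : ℝ) < 80 * (|D| + 2) := by positivity
    calc 80 * (|D| + 2) * Real.log x ≤ 80 * (|D| + 2) * (1 / (80 * (|D| + 2)) * x) :=
          mul_le_mul_of_nonneg_left hx h2.le
      _ = x := by field_simp
  filter_upwards [eventually_ge_atTop 100, t1.eventually_ge_atTop (100 + 2 ^ (A + B + 4)),
    t2.eventually_ge_atTop 100, t3.eventually_ge_atTop 100, t1.eventually h1, h2, h3, t1.eventually h4]
    with l1 g1 g2 g3 g4 g5 g6 g7 g8
  intro l2 l3 l4 y hl2 hl3 hl4 hy W hW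
  rw [← hl2] at g2 g3 g4 g5 g6 g7 g8
  rw [← hl3] at g3 g4 g5 g8
  rw [← hl4] at g4
  have hpow : (0 : ℝ) < 2 ^ (A + B + 4) := by positivity
  have p2 : 100 ≤ l2 := by linarith
  have p1 : 0 < l1 := by linarith
  have hl2B : 0 < l2 ^ (B + 1) := by positivity
  have hypos : 0 < y := by rw [hy]; positivity
  have hy5 : y₀ + 5 ≤ y := by
    rw [hy, le_div_iff₀ hl2B]
    exact g7
  have hyle : y ≤ l1 := by
    rw [hy]
    apply div_le_self p1.le
    exact one_le_pow₀ (by linarith)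
  have hlogy1 : l2 / 2 ≤ Real.log y := by
    rw [hy, hl2]
    apply half_log' p1 (by rw [← hl2]; exact hl2B)
    rw [Real.log_pow, ← hl2, ← hl3]
    linarith
  have hlogy2 : Real.log y ≤ l2 := by
    rw [hl2]
    exact Real.log_le_log hypos hyle
  have hlogypos : 0 < Real.log y := by linarith
  have hlog2 : Real.log 2 ≤ 1 := by
    have := Real.log_two_lt_d9
    linarith
  have hll1 : l3 / 2 ≤ Real.log (Real.log y) := by
    have e1 := Real.log_le_log (by linarith) hlogy1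
    rw [Real.log_div (by linarith) (by norm_num), ← hl3] at e1
    linarith
  have hll2 : Real.log (Real.log y) ≤ l3 := by
    rw [hl3]
    exact Real.log_le_log hlogypos hlogy2
  have hllpos : 0 < Real.log (Real.log y) := by linarith
  have hlll1 : l4 / 2 ≤ Real.log (Real.log (Real.log y)) := by
    have e1 := Real.log_le_log (by linarith) hll1
    rw [Real.log_div (by linarith) (by norm_num), ← hl4] at e1
    linarith
  have hlllpos : 0 < Real.log (Real.log (Real.log y)) := by linarith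
  have hWr : (W : ℝ) ≤ l1 * l2 ^ A := by
    rw [hW]
    exact Nat.floor_le (by positivity)
  have hl2A : 1 ≤ l2 ^ A := one_le_pow₀ (by linarith)
  have hWl : l1 * l2 ^ A - 1 ≤ W := by
    rw [hW]
    have := Nat.lt_floor_add_one (l1 * l2 ^ A)
    linarith
  have hl1W : l1 - 1 ≤ W := by nlinarith
  refine ⟨⟨g1, p2, g3, g4, by linarith, ?_⟩, ⟨?_, ?_⟩, ?_, ⟨?_, ?_, by linarith, by linarith, ?_⟩, ?_, ?_⟩
  · -- 5 ≤ y
    have h5 : (100 : ℝ) ≤ l2 := p2
    -- `log y ≥ 50`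
    have h6 : Real.log y ≤ y - 1 := Real.log_le_sub_one_of_pos hypos
    linarith
  · push_cast
    linarith
  · push_cast
    have e1 : (l2 / 2) ^ (A + B + 3) ≤ (Real.log y) ^ (A + B + 3) := pow_le_pow_left₀ (by linarith) hlogy1 _
    have e2 : y * (l2 / 2) ^ (A + B + 3) = l1 * l2 ^ A * (l2 ^ 2 / 2 ^ (A + B + 3)) := by
      rw [hy]
      have : l2 ^ (A + B + 3) = l2 ^ (B + 1) * l2 ^ A * l2 ^ 2 := by ring
      rw [div_pow, this]
      field_simp
    have e3 : (2 : ℝ) ≤ l2 ^ 2 / 2 ^ (A + B + 3) := by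
      rw [le_div_iff₀ (by positivity)]
      have e4 : (2 : ℝ) ^ (A + B + 4) = 2 * 2 ^ (A + B + 3) := by ring
      have e5 : l2 ≤ l2 ^ 2 := by nlinarith
      linarith
    have e4 : l1 * l2 ^ A * 2 ≤ l1 * l2 ^ A * (l2 ^ 2 / 2 ^ (A + B + 3)) :=
      mul_le_mul_of_nonneg_left e3 (by positivity)
    have e5 : y * (l2 / 2) ^ (A + B + 3) ≤ y * (Real.log y) ^ (A + B + 3) :=
      mul_le_mul_of_nonneg_left e1 hypos.le
    linarith
  · intro t ht
    have e1 : K * (Real.log (Real.log y)) ^ 2 / ((Real.log y) ^ 2 * Real.log (Real.log (Real.log y))) ≤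
        8 * K * (l3 ^ 2 / (l2 ^ 2 * l4)) := by
      rw [div_le_iff₀ (by positivity)]
      have e2 : (Real.log (Real.log y)) ^ 2 ≤ l3 ^ 2 := pow_le_pow_left₀ hllpos.le hll2 2
      have e3 : (l2 / 2) ^ 2 * (l4 / 2) ≤ (Real.log y) ^ 2 * Real.log (Real.log (Real.log y)) := by
        apply mul_le_mul (pow_le_pow_left₀ (by linarith) hlogy1 2) hlll1 (by linarith) (by positivity)
      calc K * (Real.log (Real.log y)) ^ 2 ≤ K * l3 ^ 2 := mul_le_mul_of_nonneg_left e2 hK.le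
        _ = 8 * K * (l3 ^ 2 / (l2 ^ 2 * l4)) * ((l2 / 2) ^ 2 * (l4 / 2)) := by
            have : l2 ≠ 0 := by linarith
            have : l4 ≠ 0 := by linarith
            field_simp
            norm_num
        _ ≤ _ := mul_le_mul_of_nonneg_left e3 (by positivity)
    have e0 : 0 ≤ K * (Real.log (Real.log y)) ^ 2 /
        ((Real.log y) ^ 2 * Real.log (Real.log (Real.log y))) := by positivity
    have hl30 : 0 < l3 := by linarith
    have hl40 : 0 < l4 := by linarith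
    have hl20 : 0 < l2 := by linarith
    have hT0 : 0 ≤ c / (8 * K) * (l1 * l2 ^ 2 * l4 / l3 ^ 2) := by positivity
    calc t * (K * (Real.log (Real.log y)) ^ 2 /
          ((Real.log y) ^ 2 * Real.log (Real.log (Real.log y)))) ≤
        c / (8 * K) * (l1 * l2 ^ 2 * l4 / l3 ^ 2) * (K * (Real.log (Real.log y)) ^ 2 /
          ((Real.log y) ^ 2 * Real.log (Real.log (Real.log y)))) := mul_le_mul_of_nonneg_right ht e0
      _ ≤ c / (8 * K) * (l1 * l2 ^ 2 * l4 / l3 ^ 2) * (8 * K * (l3 ^ 2 / (l2 ^ 2 * l4))) :=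
          mul_le_mul_of_nonneg_left e1 hT0
      _ = c * l1 := by
          field_simp
  · -- 2 ≤ V1
    have hV : |D| + 2 ≤ V1 y := by
      unfold V1
      rw [le_div_iff₀ (by positivity)]
      have e1 : l2 / 2 * (l4 / 2) ≤ Real.log y * Real.log (Real.log (Real.log y)) :=
        mul_le_mul hlogy1 hlll1 (by linarith) hlogypos.le
      have e2 : (|D| + 2) * (20 * Real.log (Real.log y)) ≤ (|D| + 2) * (20 * l3) := by
        apply mul_le_mul_of_nonneg_left _ (by positivity)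
        linarith
      have e3 : (|D| + 2) * (20 * l3) ≤ l2 / 4 := by linarith
      have e4 : l2 / 4 ≤ l2 / 2 * (l4 / 2) := by nlinarith
      linarith
    linarith [abs_nonneg D]
  · have hV : |D| + 2 ≤ V1 y := by
      unfold V1
      rw [le_div_iff₀ (by positivity)]
      have e1 : l2 / 2 * (l4 / 2) ≤ Real.log y * Real.log (Real.log (Real.log y)) :=
        mul_le_mul hlogy1 hlll1 (by linarith) hlogypos.le
      have e2 : (|D| + 2) * (20 * Real.log (Real.log y)) ≤ (|D| + 2) * (20 * l3) := by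
        apply mul_le_mul_of_nonneg_left _ (by positivity)
        linarith
      have e3 : (|D| + 2) * (20 * l3) ≤ l2 / 4 := by linarith
      have e4 : l2 / 4 ≤ l2 / 2 * (l4 / 2) := by nlinarith
      linarith
    linarith [le_abs_self D]
  · unfold V1
    rw [div_le_iff₀ (by positivity)]
    have e1 : Real.log (Real.log (Real.log y)) ≤ Real.log (Real.log y) :=
      (Real.log_le_sub_one_of_pos hllpos).trans (by linarith)
    apply mul_le_mul_of_nonneg_left _ hlogypos.le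
    linarith
  · push_cast
    have e1 : l1 ^ (1 + 1 / 8 : ℝ) = l1 * l1 ^ (1 / 8 : ℝ) := by
      rw [Real.rpow_add p1, Real.rpow_one]
    rw [e1]
    have e2 : l1 * (2 * l2 ^ A + 1) ≤ l1 * l1 ^ (1 / 8 : ℝ) := mul_le_mul_of_nonneg_left g6 p1.le
    nlinarith
  · have e1 : l1 ^ (1 / 8 : ℝ) ≤ l1 ^ (1 : ℝ) := Real.rpow_le_rpow_of_exponent_le (by linarith) (by norm_num)
    rw [Real.rpow_one] at e1
    -- need 4 W ≤ l1^2
    have e3 : l1 ^ (1 / 8 : ℝ) ≤ l1 ^ (1 / 2 : ℝ) := Real.rpow_le_rpow_of_exponent_le (by linarith) (by norm_num)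
    have e4 : l1 ^ (1 / 2 : ℝ) * l1 ^ (1 / 2 : ℝ) = l1 := by
      rw [← Real.rpow_add p1]; norm_num
    have e5 : 2 ≤ l1 ^ (1 / 2 : ℝ) := by
      by_contra hcon
      push Not at hcon
      have : l1 ^ (1 / 2 : ℝ) * l1 ^ (1 / 2 : ℝ) < 2 * 2 := by
        apply mul_lt_mul'' hcon hcon <;> positivity
      linarith
    have e6 : 2 * l1 ^ (1 / 8 : ℝ) ≤ l1 := by
      calc 2 * l1 ^ (1 / 8 : ℝ) ≤ l1 ^ (1 / 2 : ℝ) * l1 ^ (1 / 2 : ℝ) :=
            mul_le_mul e5 e3 (by positivity) (by positivity)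
        _ = l1 := e4
    have e7 : 4 * l2 ^ A ≤ l1 := by linarith
    calc 4 * (W : ℝ) ≤ 4 * (l1 * l2 ^ A) := by linarith
      _ = l1 * (4 * l2 ^ A) := by ring
      _ ≤ l1 * l1 := mul_le_mul_of_nonneg_left e7 p1.le
      _ = l1 ^ 2 := by ring

/-- the count -/
theorem ana2 (B : ℕ) (D : ℝ) (hD : 1 ≤ D) : ∀ᶠ l1 : ℝ in atTop, ∀ l2 y Q : ℝ, l2 = Real.log l1 →
    y = l1 / l2 ^ (B + 1) → 1 ≤ Q → Q ≤ D * Real.exp (3 / 2 * y) →
    (l2 / 4) ^ 2 * Real.exp (l2 / 4) ≤ l1 ^ (1 / 2 : ℝ) ∧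
    Real.exp ((1 - 1 / 8) * l1) ≤ Real.exp l1 / Q - 1 ∧
    Real.exp (l1 - l1 / l2 ^ B) + l1 ^ 2 * (2 * Real.exp (l1 / 100) + 1) ≤
      3 / 8 * (Real.exp l1 / Q - 1) * Real.exp (-(l1 ^ (1 / 2 : ℝ))) := by
  have t1 := Real.tendsto_log_atTop
  have h1 : ∀ᶠ x : ℝ in atTop, 16 * (Real.log x) ^ B * x ^ (1 / 2 : ℝ) ≤ x := by
    have h := (isLittleO_log_rpow_rpow_atTop (B : ℝ) (show (0 : ℝ) < 1 / 2 by norm_num)).def
      (show (0 : ℝ) < 1 / 16 by norm_num)
    filter_upwards [h, eventually_ge_atTop 1] with x hx hx1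
    have h3 : 0 ≤ Real.log x := Real.log_nonneg hx1
    have hx0 : 0 < x := by linarith
    have hr : 0 ≤ x ^ (1 / 2 : ℝ) := by positivity
    rw [Real.norm_eq_abs, Real.norm_eq_abs, Real.rpow_natCast, abs_of_nonneg (pow_nonneg h3 _),
      abs_of_nonneg hr] at hx
    have e1 : x = x ^ (1 / 2 : ℝ) * x ^ (1 / 2 : ℝ) := by
      rw [← Real.rpow_add hx0]; norm_num
    calc 16 * (Real.log x) ^ B * x ^ (1 / 2 : ℝ) ≤ 16 * (1 / 16 * x ^ (1 / 2 : ℝ)) * x ^ (1 / 2 : ℝ) := by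
          apply mul_le_mul_of_nonneg_right _ hr
          linarith
      _ = x ^ (1 / 2 : ℝ) * x ^ (1 / 2 : ℝ) := by ring
      _ = x := e1.symm
  have h2 : ∀ᶠ x : ℝ in atTop, (Real.log x / 4) ^ 2 * Real.exp (Real.log x / 4) ≤ x ^ (1 / 2 : ℝ) := by
    have h := (isLittleO_log_rpow_rpow_atTop (2 : ℝ) (show (0 : ℝ) < 1 / 4 by norm_num)).def
      (show (0 : ℝ) < 1 by norm_num)
    filter_upwards [h, eventually_ge_atTop 1] with x hx hx1
    have h3 : 0 ≤ Real.log x := Real.log_nonneg hx1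
    have hx0 : 0 < x := by linarith
    have hr : 0 ≤ x ^ (1 / 4 : ℝ) := by positivity
    rw [Real.norm_eq_abs, Real.norm_eq_abs, Real.rpow_two, abs_of_nonneg (pow_nonneg h3 _),
      abs_of_nonneg hr, one_mul] at hx
    have e1 : Real.exp (Real.log x / 4) = x ^ (1 / 4 : ℝ) := by
      rw [Real.rpow_def_of_pos hx0]
      congr 1
      ring
    have e2 : x ^ (1 / 2 : ℝ) = x ^ (1 / 4 : ℝ) * x ^ (1 / 4 : ℝ) := by
      rw [← Real.rpow_add hx0]; norm_num
    rw [e1, e2]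
    apply mul_le_mul_of_nonneg_right _ hr
    calc (Real.log x / 4) ^ 2 = (Real.log x) ^ 2 / 16 := by ring
      _ ≤ (Real.log x) ^ 2 := div_le_self (by positivity) (by norm_num)
      _ ≤ _ := hx
  have h3 : ∀ᶠ x : ℝ in atTop, x ^ 2 * 3 ≤ Real.exp (1 / 100 * x) := by
    have h := (isLittleO_pow_exp_pos_mul_atTop (k := 2) (show (0 : ℝ) < 1 / 100 by norm_num)).def
      (show (0 : ℝ) < 1 / 3 by norm_num)
    filter_upwards [h, eventually_ge_atTop 1] with x hx hx1
    rw [Real.norm_of_nonneg (by positivity), Real.norm_of_nonneg (Real.exp_pos _).le] at hx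
    linarith
  filter_upwards [eventually_ge_atTop 1000, t1.eventually_ge_atTop 1000, h1, h2, h3,
    eventually_ge_atTop (100 * (Real.log D + 10)), eventually_ge_atTop ((Real.log D + 20) ^ 2)]
    with l1 g1 g2 g3 g4 g5 g6 g7
  intro l2 y Q hl2 hy hQ1 hQ
  rw [← hl2] at g2 g3 g4
  set s : ℝ := l1 ^ (1 / 2 : ℝ) with hs
  have hl10 : 0 < l1 := by linarith
  have hs0 : 0 < s := by rw [hs]; positivity
  have hlB : 1 ≤ l2 ^ B := one_le_pow₀ (by linarith)
  have hlD : 0 ≤ Real.log D := Real.log_nonneg hD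
  -- sizes
  have hy2 : 3 / 2 * y ≤ l1 / l2 ^ B / 100 := by
    rw [hy, pow_succ]
    have e0 : 0 < l2 := by linarith
    have e0' : 0 < l2 ^ B := by positivity
    rw [div_div, mul_div_assoc', div_le_div_iff₀ (by positivity) (by positivity)]
    have e1 : l2 ^ B * 1000 ≤ l2 ^ B * l2 := mul_le_mul_of_nonneg_left g2 (by linarith)
    calc 3 / 2 * l1 * (l2 ^ B * 100) ≤ l1 * (l2 ^ B * 1000) := by
          have : 0 ≤ l1 * l2 ^ B := by positivity
          nlinarith
      _ ≤ l1 * (l2 ^ B * l2) := mul_le_mul_of_nonneg_left e1 hl10.le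
  have hu : l1 / l2 ^ B ≤ l1 := div_le_self hl10.le hlB
  set u : ℝ := l1 / l2 ^ B with hud
  have hu0 : 0 < u := by rw [hud]; positivity
  have hs16 : 16 * s ≤ u := by
    rw [hud, le_div_iff₀ (by positivity)]
    linarith
  have hlogQ : Real.log Q ≤ Real.log D + u / 100 := by
    have e1 := Real.log_le_log (by linarith) hQ
    rw [Real.log_mul (by linarith) (Real.exp_pos _).ne', Real.log_exp] at e1
    linarith
  -- `log D + 10 ≤ s`
  have hss : s * s = l1 := by
    rw [hs, ← Real.rpow_add hl10]; norm_num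
  have hs30 : 30 ≤ s := by
    by_contra hcon
    push Not at hcon
    nlinarith
  have hEQ : Real.exp (l1 - Real.log D - u / 100) ≤ Real.exp l1 / Q := by
    rw [le_div_iff₀ (by linarith)]
    have e1 : Q = Real.exp (Real.log Q) := (Real.exp_log (by linarith)).symm
    rw [e1, ← Real.exp_add]
    apply Real.exp_le_exp.2
    linarith
  have hbig : Real.exp ((1 - 1 / 8) * l1) + 1 ≤ Real.exp l1 / Q := by
    refine le_trans ?_ hEQ
    have e1 : (1 - 1 / 8) * l1 + 1 ≤ l1 - Real.log D - u / 100 := by linarith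
    refine le_trans ?_ (Real.exp_le_exp.2 e1)
    rw [Real.exp_add]
    have e2 : (2 : ℝ) ≤ Real.exp 1 := by
      have := Real.add_one_le_exp (1 : ℝ)
      linarith
    have e3 : 1 ≤ Real.exp ((1 - 1 / 8) * l1) := Real.one_le_exp (by linarith)
    nlinarith
  refine ⟨g4, by linarith, ?_⟩
  have hhalf : Real.exp (l1 - Real.log D - u / 100 - 1) ≤ Real.exp l1 / Q - 1 := by
    have e1 : Real.exp (l1 - Real.log D - u / 100 - 1) + 1 ≤ Real.exp (l1 - Real.log D - u / 100) := by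
      have e2 : Real.exp (l1 - Real.log D - u / 100) = Real.exp (l1 - Real.log D - u / 100 - 1) * Real.exp 1 := by
        rw [← Real.exp_add]; congr 1; ring
      rw [e2]
      have e3 : (2 : ℝ) ≤ Real.exp 1 := by
        have := Real.add_one_le_exp (1 : ℝ)
        linarith
      have e4 : 1 ≤ Real.exp (l1 - Real.log D - u / 100 - 1) := Real.one_le_exp (by linarith)
      nlinarith
    linarith
  have hfin : 3 / 8 * Real.exp (l1 - Real.log D - u / 100 - 1) * Real.exp (-s) ≤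
      3 / 8 * (Real.exp l1 / Q - 1) * Real.exp (-s) := by
    apply mul_le_mul_of_nonneg_right _ (Real.exp_pos _).le
    linarith
  refine le_trans ?_ hfin
  have hlog100 : Real.log 100 ≤ 10 := by
    have e11 : (100 : ℝ) ≤ Real.exp 10 := by
      have e13 : Real.exp 10 = Real.exp 5 * Real.exp 5 := by rw [← Real.exp_add]; norm_num
      have e14 : (2.7182818283 : ℝ) < Real.exp 1 := Real.exp_one_gt_d9
      have e15 : Real.exp 5 = Real.exp 1 ^ 5 := by rw [← Real.exp_nat_mul]; norm_num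
      have e16 : (2.7 : ℝ) ^ 5 ≤ Real.exp 1 ^ 5 := pow_le_pow_left₀ (by norm_num) (by linarith) 5
      rw [e13, e15]
      nlinarith
    rw [Real.log_le_iff_le_exp (by norm_num)]
    exact e11
  -- the two terms on the left
  have e5 : l1 ^ 2 * (2 * Real.exp (l1 / 100) + 1) ≤ Real.exp (l1 / 50) := by
    have e6 : 1 ≤ Real.exp (l1 / 100) := Real.one_le_exp (by positivity)
    have e7 : Real.exp (l1 / 50) = Real.exp (1 / 100 * l1) * Real.exp (l1 / 100) := by
      rw [← Real.exp_add]; congr 1; ring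
    rw [e7]
    calc l1 ^ 2 * (2 * Real.exp (l1 / 100) + 1) ≤ l1 ^ 2 * (3 * Real.exp (l1 / 100)) :=
          mul_le_mul_of_nonneg_left (by linarith) (by positivity)
      _ = (l1 ^ 2 * 3) * Real.exp (l1 / 100) := by ring
      _ ≤ _ := mul_le_mul_of_nonneg_right g5 (Real.exp_pos _).le
  have e8 : Real.exp (l1 - u) ≤ 1 / 100 * (Real.exp (l1 - Real.log D - u / 100 - 1) * Real.exp (-s)) := by
    rw [← Real.exp_add]
    have e9 : (1 / 100 : ℝ) = Real.exp (- Real.log 100) := by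
      rw [Real.exp_neg, Real.exp_log (by norm_num)]; norm_num
    rw [e9, ← Real.exp_add]
    apply Real.exp_le_exp.2
    have e10 : Real.log 100 ≤ 10 := hlog100
    have e17 : Real.log D + 20 ≤ s := by
      by_contra hcon
      push Not at hcon
      have e18 : s * s < (Real.log D + 20) * (Real.log D + 20) := mul_lt_mul'' hcon hcon hs0.le hs0.le
      rw [hss] at e18
      nlinarith
    linarith
  have e19 : Real.exp (l1 / 50) ≤ 1 / 100 * (Real.exp (l1 - Real.log D - u / 100 - 1) * Real.exp (-s)) := by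
    rw [← Real.exp_add]
    have e9 : (1 / 100 : ℝ) = Real.exp (- Real.log 100) := by
      rw [Real.exp_neg, Real.exp_log (by norm_num)]; norm_num
    rw [e9, ← Real.exp_add]
    apply Real.exp_le_exp.2
    have e10 : Real.log 100 ≤ 10 := hlog100
    have e20 : s * 30 ≤ s * s := mul_le_mul_of_nonneg_left hs30 hs0.le
    rw [hss] at e20
    linarith
  have e21 : 0 ≤ Real.exp (l1 - Real.log D - u / 100 - 1) * Real.exp (-s) := by positivity
  linarith

end Pool.Agent.K7.H61.RF
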