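import Pool.Agent.K7.H61.RF.Ana
import Pool.Agent.H378R2.PT.Main
import Pool.Agent.H674R2.PT.T1
import Pool.Agent.Y831.RC5.Cov5b

set_option autoImplicit false
set_option maxHeartbeats 4000000

/-! # Frequency of prime-free patterns of record size (helper61) -/

namespace Pool.Agent.K7.H61.RF

open Finset Filter
open Pool.Agent.H256R2.SC (ff)
open Pool.Agent.H256R2.SC.LG (exists_crt)
open Pool.Agent.H378R2.PS (V1 toNat_mod)
open Pool.Agent.H378R2.PT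

open scoped Classical

theorem solveZ {p Q : ℕ} (hp : p.Prime) (hpQ : ¬ p ∣ Q) (a : ℤ) : ∃ ρ : ℤ, (p : ℤ) ∣ Q * ρ + a := by
  obtain ⟨i, hi⟩ := Pool.Agent.H256R2.SC.LG.inv_exists hp hpQ
  refine ⟨-(i * a), ?_⟩
  have e : (Q : ℤ) * -(i * a) + a = -((Q * i - 1) * a) := by ring
  rw [e]
  exact (hi.mul_right a).neg_right

theorem freq (A B D : ℕ) (hD : 0 < D) : ∃ c : ℝ, 0 < c ∧ ∀ᶠ X : ℝ in atTop, ∀ (M : ℤ) (r : ℕ) (Z : Finset ℤ),
    (∀ z ∈ Z, |(z : ℝ)| ≤ Real.log X * (Real.log (Real.log X)) ^ A) → (Z.card : ℝ) ≤ c * ff X →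
    ∃ 𝒢 : Finset ℤ, X ^ (1 - 1 / (Real.log (Real.log X)) ^ B : ℝ) ≤ (𝒢.card : ℝ) ∧
      ∀ n ∈ 𝒢, (M < n ∧ (n : ℝ) ≤ M + X ∧ (D : ℤ) ∣ n - r) ∧
        ∀ z ∈ Z, ∃ p : ℕ, p.Prime ∧ (p : ℝ) ≤ X ^ (1 / 100 : ℝ) ∧ (p : ℤ) ∣ n + z ∧ (p : ℤ) < |n + z| := by
  obtain ⟨cw, Cw, hcw, hcC, hWb⟩ := Pool.Agent.Y831.RC.WW_bounds
  obtain ⟨e₀, X₁, hcov⟩ := Pool.Agent.Y831.RC.cov5 (1 / 8) (by norm_num) le_rfl
  obtain ⟨K, hK, y₀, V₀, hsurv⟩ := surv (rough_count (A + B + 3)) D hD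
  obtain ⟨D', hD'⟩ : ∃ D' : ℕ, D' = max D V₀ := ⟨_, rfl⟩
  have hDD' : (D : ℝ) ≤ D' := by rw [hD']; exact_mod_cast le_max_left _ _
  have hVD' : (V₀ : ℝ) ≤ D' := by rw [hD']; exact_mod_cast le_max_right _ _
  have hD1 : (1 : ℝ) ≤ D := by exact_mod_cast hD
  refine ⟨min (cw / 36 / (8 * K)) (1 : ℝ), lt_min (by positivity) one_pos, ?_⟩
  have t1 := Real.tendsto_log_atTop
  have t2 : Tendsto (fun x : ℝ => Real.log (Real.log x)) atTop atTop := t1.comp t1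
  filter_upwards [t1.eventually (ana1 A B D' K (cw / 36) y₀ (by positivity) hK),
    t1.eventually (ana2 B D hD1), eventually_ge_atTop X₁, eventually_gt_atTop 0,
    t2.eventually_ge_atTop (4 * e₀)] with X hana1 hana2 hX1 hX0 he0
  intro M r Z hZ hZc
  set l1 := Real.log X with hl1
  set l2 := Real.log l1 with hl2
  set l3 := Real.log l2 with hl3
  set l4 := Real.log l3 with hl4
  obtain ⟨y, hy⟩ : ∃ y : ℝ, y = l1 / l2 ^ (B + 1) := ⟨_, rfl⟩
  obtain ⟨W, hW⟩ : ∃ W : ℕ, W = ⌊l1 * l2 ^ A⌋₊ := ⟨_, rfl⟩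
  obtain ⟨⟨g1, g2, g3, g4, g5, g6⟩, ⟨g7, g8⟩, g9, ⟨g10, g11, g12, g13, g14⟩, g15, g16⟩ :=
    hana1 l2 l3 l4 y rfl rfl rfl hy W hW
  have hff : ff X = l1 * l2 ^ 2 * l4 / l3 ^ 2 := rfl
  have hffn : 0 ≤ ff X := by
    rw [hff]
    positivity
  have hXe : X = Real.exp l1 := (Real.exp_log hX0).symm
  have hlogy : 0 < Real.log y := Real.log_pos (by linarith)
  have hy0 : 0 ≤ y := by linarith
  -- the translated set
  obtain ⟨T, hT⟩ : ∃ T : Finset ℕ, T = Z.image (fun z : ℤ => (z + (W : ℤ)).toNat) := ⟨_, rfl⟩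
  have hZW : ∀ z ∈ Z, |z| ≤ (W : ℤ) := by
    intro z hz
    have h1 := hZ z hz
    have h2 : ((z.natAbs : ℕ) : ℝ) ≤ l1 * l2 ^ A := by
      rw [Nat.cast_natAbs]
      push_cast
      exact h1
    have h3 : z.natAbs ≤ W := by rw [hW]; exact Nat.le_floor h2
    rw [Int.abs_eq_natAbs]
    exact_mod_cast h3
  have hTW : ∀ k ∈ T, k ≤ 2 * W := by
    intro k hk
    rw [hT, Finset.mem_image] at hk
    obtain ⟨z, hz, rfl⟩ := hk
    have := abs_le.1 (hZW z hz)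
    omega
  have hTcard : (T.card : ℝ) ≤ cw / 36 / (8 * K) * (l1 * l2 ^ 2 * l4 / l3 ^ 2) := by
    have h1 : (T.card : ℝ) ≤ Z.card := by
      rw [hT]
      exact_mod_cast Finset.card_image_le
    refine (h1.trans hZc).trans ?_
    rw [hff] at hffn ⊢
    exact mul_le_mul_of_nonneg_right (min_le_left _ _) hffn
  obtain ⟨s, b, hcard⟩ := hsurv y g5 g6 (hVD'.trans g11) g10 g12 g13 (2 * W) g7 g8 T hTW
  obtain ⟨T₂, hT₂⟩ : ∃ T₂ : Finset ℕ, T₂ = T.filter (fun k : ℕ =>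
      (∀ p : ℕ, p.Prime → V1 y < Real.log p → (p : ℝ) ≤ y → ¬ (p : ℤ) ∣ (k : ℤ) - s) ∧
      (∀ p : ℕ, p.Prime → Real.log p ≤ V1 y → ¬ p ∣ D → ¬ p ∣ b p + k)) := ⟨_, rfl⟩
  rw [← hT₂] at hcard
  have hT2card : (T₂.card : ℝ) ≤ cw / 36 * l1 := hcard.trans (g9 _ hTcard)
  have hT2W : ∀ k ∈ T₂, k ≤ 2 * W := by
    intro k hk
    rw [hT₂, Finset.mem_filter] at hk
    exact hTW k hk.1
  -- the residue classes
  obtain ⟨cl, hcl⟩ : ∃ cl : ℕ → ℕ, cl = fun p : ℕ => if Real.log p ≤ V1 y then b p else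
    ((-(s : ℤ)) % (p : ℤ)).toNat := ⟨_, rfl⟩
  obtain ⟨b0, hb0, hb0'⟩ := exists_crt ⌊y⌋₊ cl
  obtain ⟨P, hP⟩ : ∃ P : ℕ, P = ∏ p ∈ (Finset.range (⌊y⌋₊ + 1)).filter
    (fun p => p.Prime ∧ ¬ p ∣ D), p := ⟨_, rfl⟩
  have hP0 : 0 < P := by
    rw [hP]
    apply Finset.prod_pos
    intro p hp
    exact (Finset.mem_filter.1 hp).2.1.pos
  have hPprim : P ≤ primorial ⌊y⌋₊ := by
    rw [hP, primorial]
    apply Finset.prod_le_prod_of_subset_of_one_le'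
    · intro p hp
      rw [Finset.mem_filter] at hp ⊢
      exact ⟨hp.1, hp.2.1⟩
    · intro p hp _
      exact (Finset.mem_filter.1 hp).2.one_le
  have hPD : Nat.Coprime P D := by
    rw [hP]
    apply Nat.Coprime.prod_left
    intro p hp
    have := (Finset.mem_filter.1 hp).2
    exact (Nat.Prime.coprime_iff_not_dvd this.1).2 this.2
  obtain ⟨b1, hb1, hb2⟩ : ∃ b1 : ℕ, b1 ≡ b0 [MOD P] ∧ b1 ≡ r + (D - 1) * W [MOD D] :=
    ⟨_, (Nat.chineseRemainder hPD b0 (r + (D - 1) * W)).2.1,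
      (Nat.chineseRemainder hPD b0 (r + (D - 1) * W)).2.2⟩
  obtain ⟨Q, hQ⟩ : ∃ Q : ℕ, Q = P * D := ⟨_, rfl⟩
  have hQ0 : 0 < Q := by rw [hQ]; exact Nat.mul_pos hP0 hD
  have hQR : (0 : ℝ) < Q := by exact_mod_cast hQ0
  have hQ1 : (1 : ℝ) ≤ Q := by exact_mod_cast hQ0
  have hPdvd : ∀ p : ℕ, p.Prime → (p : ℝ) ≤ y → ¬ p ∣ D → p ∣ P := by
    intro p hp hpy hpD
    rw [hP]
    apply Finset.dvd_prod_of_mem
    rw [Finset.mem_filter, Finset.mem_range]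
    exact ⟨by have := Nat.le_floor hpy; omega, hp, hpD⟩
  have hQle : (Q : ℝ) ≤ D * Real.exp (3 / 2 * y) := by
    have h1 : (P : ℝ) ≤ primorial ⌊y⌋₊ := by exact_mod_cast hPprim
    have h2 : (primorial ⌊y⌋₊ : ℝ) ≤ (4 : ℝ) ^ ⌊y⌋₊ := by exact_mod_cast primorial_le_four_pow _
    have h3 : (4 : ℝ) ^ ⌊y⌋₊ ≤ Real.exp (3 / 2 * y) := by
      rw [← Real.rpow_natCast, Real.rpow_def_of_pos (by norm_num : (0 : ℝ) < 4)]
      apply Real.exp_le_exp.2
      have h4 : Real.log 4 ≤ 3 / 2 := by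
        have : Real.log 4 = 2 * Real.log 2 := by
          rw [show (4 : ℝ) = 2 ^ (2 : ℕ) by norm_num, Real.log_pow]; norm_num
        have := Real.log_two_lt_d9
        linarith
      exact mul_le_mul h4 (Nat.floor_le hy0) (Nat.cast_nonneg _) (by norm_num)
    rw [hQ]
    push_cast
    calc (P : ℝ) * D ≤ Real.exp (3 / 2 * y) * D :=
          mul_le_mul_of_nonneg_right (h1.trans (h2.trans h3)) (by linarith)
      _ = _ := mul_comm _ _
  obtain ⟨k1, k2, k3⟩ := hana2 l2 y Q rfl hy hQ1 hQle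
  rw [← hXe] at k2 k3
  -- the range of the `x`
  obtain ⟨A', hA⟩ : ∃ A' : ℤ, A' = ⌊((M : ℝ) - W - b1) / Q⌋ := ⟨_, rfl⟩
  obtain ⟨B', hB⟩ : ∃ B' : ℤ, B' = ⌊((M : ℝ) + X - W - b1) / Q⌋ := ⟨_, rfl⟩
  have hA1 : (A' : ℝ) ≤ ((M : ℝ) - W - b1) / Q := by rw [hA]; exact Int.floor_le _
  have hA2 : ((M : ℝ) - W - b1) / Q < (A' : ℝ) + 1 := by rw [hA]; exact Int.lt_floor_add_one _
  have hB1 : (B' : ℝ) ≤ ((M : ℝ) + X - W - b1) / Q := by rw [hB]; exact Int.floor_le _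
  have hB2 : ((M : ℝ) + X - W - b1) / Q < (B' : ℝ) + 1 := by rw [hB]; exact Int.lt_floor_add_one _
  have hBA : X / Q - 1 ≤ (B' : ℝ) - A' := by
    have e1 : ((M : ℝ) + X - W - b1) / Q = ((M : ℝ) - W - b1) / Q + X / Q := by ring
    rw [e1] at hB2
    linarith
  have hbigp : ∀ p : ℕ, p.Prime → l1 ^ (1 + 1 / 8 : ℝ) < p → ¬ p ∣ Q := by
    intro p hp hpl hpQ
    have h0 : ((2 * W : ℕ) : ℝ) < p := lt_trans g15 hpl
    rw [hQ] at hpQ
    rcases (Nat.Prime.dvd_mul hp).1 hpQ with h1 | h1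
    · rw [hP] at h1
      rw [Prime.dvd_finsetProd_iff hp.prime] at h1
      obtain ⟨p', hp', hpp'⟩ := h1
      rw [Finset.mem_filter, Finset.mem_range] at hp'
      have h4 : p = p' := (Nat.prime_dvd_prime_iff_eq hp hp'.2.1).1 hpp'
      have h5 : (p : ℝ) ≤ y := by
        have : p ≤ ⌊y⌋₊ := by omega
        calc (p : ℝ) ≤ (⌊y⌋₊ : ℝ) := by exact_mod_cast this
          _ ≤ y := Nat.floor_le hy0
      linarith
    · have h4 := Nat.le_of_dvd hD h1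
      have h5 : (p : ℝ) ≤ D := by exact_mod_cast h4
      have h6 : Real.log y ≤ y := by
        have := Real.log_le_sub_one_of_pos (show 0 < y by linarith)
        linarith
      linarith
  have hex : ∀ (p : ℕ) (k : {h // h ∈ T₂}), ∃ ρ : ℤ, p.Prime → l1 ^ (1 + 1 / 8 : ℝ) < p →
      (p : ℤ) ∣ (Q : ℤ) * ρ + (b1 + ((k : ℕ) : ℤ)) := by
    intro p k
    by_cases h : p.Prime ∧ l1 ^ (1 + 1 / 8 : ℝ) < p
    · obtain ⟨ρ, hρ⟩ := solveZ h.1 (hbigp p h.1 h.2) (b1 + ((k : ℕ) : ℤ))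
      exact ⟨ρ, fun _ _ => hρ⟩
    · exact ⟨0, fun h1 h2 => absurd ⟨h1, h2⟩ h⟩
  choose res hres using hex
  have hl10 : 0 < l1 := by linarith
  have hcnt := hcov X hX1 (l2 / 4) (by linarith) (by linarith) {h // h ∈ T₂}
    (by
      rw [Fintype.card_coe]
      refine hT2card.trans ?_
      have e1 : (2 : ℝ) ≤ l1 ^ (1 + 1 / 8 : ℝ) := by
        calc (2 : ℝ) ≤ l1 ^ (1 : ℝ) := by rw [Real.rpow_one]; linarith
          _ ≤ _ := Real.rpow_le_rpow_of_exponent_le (by linarith) (by norm_num)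
      have e2 := (hWb _ e1).1
      rw [Real.log_rpow hl10] at e2
      rw [← hl2] at e2
      have e3 : cw / 36 * l1 = (1 / 8) * (l2 / 4 * l1 * (cw / (9 / 8 * l2))) := by
        field_simp
        norm_num
      rw [e3]
      have e4 : cw / (9 / 8 * l2) ≤ Pool.Agent.Y831.RC.WW (l1 ^ (1 + 1 / 8 : ℝ)) := by
        rw [div_le_iff₀ (by linarith)]
        have e5 : (1 + 1 / 8 : ℝ) = 9 / 8 := by norm_num
        rw [e5] at e2 ⊢
        exact e2
      have e6 : (1 / 2 - 3 * (1 / 8) : ℝ) = 1 / 8 := by norm_num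
      rw [e6]
      apply mul_le_mul_of_nonneg_left _ (by norm_num)
      exact mul_le_mul_of_nonneg_left e4 (by positivity))
    res
    (by
      intro p hp hpl _ k l hkl hd
      have h1 := hres p k hp hpl
      have h2 := hres p l hp hpl
      have hk := hT2W _ k.2
      have hl := hT2W _ l.2
      have h3 : (p : ℤ) ∣ ((k : ℕ) : ℤ) - ((l : ℕ) : ℤ) := by
        have h4 : ((k : ℕ) : ℤ) - ((l : ℕ) : ℤ) = ((Q : ℤ) * res p k + (b1 + ((k : ℕ) : ℤ))) -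
            ((Q : ℤ) * res p l + (b1 + ((l : ℕ) : ℤ))) - Q * (res p k - res p l) := by ring
        rw [h4]
        exact dvd_sub (dvd_sub h1 h2) (hd.mul_left _)
      have h4 : ((2 * W : ℕ) : ℝ) < p := lt_trans g15 hpl
      have h5 : 2 * W < p := by exact_mod_cast h4
      have h6 : (l : ℕ) ≠ (k : ℕ) := fun h0 => hkl (Subtype.ext h0.symm)
      have h7 : ((k : ℕ) : ℤ) - ((l : ℕ) : ℤ) ≠ 0 := by omega
      have h8 := Int.le_of_dvd (abs_pos.mpr h7) ((dvd_abs _ _).mpr h3)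
      have h9 : |((k : ℕ) : ℤ) - ((l : ℕ) : ℤ)| ≤ ((2 * W : ℕ) : ℤ) := by
        rw [abs_le]
        constructor <;> omega
      omega) A' B' (by linarith)
  obtain ⟨𝒳, h𝒳⟩ : ∃ 𝒳 : Finset ℤ, 𝒳 = (Ioc A' B').filter (fun x : ℤ => ∀ k : {h // h ∈ T₂}, ∃ p : ℕ, p.Prime ∧
      (Real.log X) ^ (1 + 1 / 8 : ℝ) < p ∧ (p : ℝ) ≤ Real.exp ((1 / 8) ^ 2 * Real.log X / (100 * (l2 / 4))) ∧
      (p : ℤ) ∣ x - res p k) := ⟨_, rfl⟩
  have hcnt' : 3 / 8 * (X / Q - 1) * Real.exp (-(l1 ^ (1 / 2 : ℝ))) ≤ (𝒳.card : ℝ) := by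
    have e1 : 3 / 8 * ((B' : ℝ) - A') ≤ (𝒳.card : ℝ) * Real.exp ((l2 / 4) ^ 2 * Real.exp (l2 / 4)) := by
      rw [h𝒳]
      exact hcnt
    have e2 : (𝒳.card : ℝ) * Real.exp ((l2 / 4) ^ 2 * Real.exp (l2 / 4)) ≤
        (𝒳.card : ℝ) * Real.exp (l1 ^ (1 / 2 : ℝ)) :=
      mul_le_mul_of_nonneg_left (Real.exp_le_exp.2 k1) (Nat.cast_nonneg _)
    have e3 : 3 / 8 * (X / Q - 1) ≤ (𝒳.card : ℝ) * Real.exp (l1 ^ (1 / 2 : ℝ)) := by linarith
    calc 3 / 8 * (X / Q - 1) * Real.exp (-(l1 ^ (1 / 2 : ℝ))) ≤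
        (𝒳.card : ℝ) * Real.exp (l1 ^ (1 / 2 : ℝ)) * Real.exp (-(l1 ^ (1 / 2 : ℝ))) :=
          mul_le_mul_of_nonneg_right e3 (Real.exp_pos _).le
      _ = 𝒳.card := by
          rw [mul_assoc, ← Real.exp_add, add_neg_cancel, Real.exp_zero, mul_one]
  -- the integers `n`
  set Y : ℝ := X ^ (1 / 100 : ℝ) with hY
  have hYe : Y = Real.exp (l1 / 100) := by
    rw [hY, Real.rpow_def_of_pos hX0, ← hl1]
    congr 1
    ring
  obtain ⟨𝒩, h𝒩⟩ : ∃ 𝒩 : Finset ℤ, 𝒩 = 𝒳.image (fun x : ℤ => b1 + Q * x + W) := ⟨_, rfl⟩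
  have h𝒩c : 𝒩.card = 𝒳.card := by
    rw [h𝒩]
    apply card_image_of_injective
    intro x x' hxx
    simp only at hxx
    have : (Q : ℤ) * x = Q * x' := by linarith
    exact mul_left_cancel₀ (by exact_mod_cast hQ0.ne') this
  obtain ⟨ℬ, hℬ⟩ : ∃ ℬ : Finset ℤ, ℬ = Z.biUnion (fun z => Icc (-(⌊Y⌋₊ : ℤ) - z) (⌊Y⌋₊ - z)) := ⟨_, rfl⟩
  have hℬc : (ℬ.card : ℝ) ≤ l1 ^ 2 * (2 * Real.exp (l1 / 100) + 1) := by
    have e1 : (ℬ.card : ℝ) ≤ ∑ z ∈ Z, ((Icc (-(⌊Y⌋₊ : ℤ) - z) (⌊Y⌋₊ - z)).card : ℝ) := by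
      rw [hℬ]
      exact_mod_cast card_biUnion_le
    have e2 : ∀ z ∈ Z, ((Icc (-(⌊Y⌋₊ : ℤ) - z) (⌊Y⌋₊ - z)).card : ℝ) ≤ 2 * Real.exp (l1 / 100) + 1 := by
      intro z _
      rw [Int.card_Icc]
      have e3 : (((⌊Y⌋₊ : ℤ) - z + 1 - (-(⌊Y⌋₊ : ℤ) - z)).toNat : ℝ) = 2 * (⌊Y⌋₊ : ℝ) + 1 := by
        have e4 : ((⌊Y⌋₊ : ℤ) - z + 1 - (-(⌊Y⌋₊ : ℤ) - z)).toNat = 2 * ⌊Y⌋₊ + 1 := by omega
        rw [e4]
        push_cast
        ring
      rw [e3, ← hYe]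
      have := Nat.floor_le (show 0 ≤ Y by rw [hYe]; exact (Real.exp_pos _).le)
      linarith
    refine e1.trans ((sum_le_card_nsmul _ _ _ e2).trans ?_)
    rw [nsmul_eq_mul]
    apply mul_le_mul_of_nonneg_right _ (by positivity)
    -- the number of the `z`
    have e3 : (Z.card : ℝ) ≤ 2 * W + 1 := by
      have e4 : Z ⊆ Icc (-(W : ℤ)) W := by
        intro z hz
        rw [mem_Icc]
        exact abs_le.1 (hZW z hz)
      have e5 := card_le_card e4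
      rw [Int.card_Icc] at e5
      have e6 : ((W : ℤ) + 1 - -(W : ℤ)).toNat = 2 * W + 1 := by omega
      rw [e6] at e5
      exact_mod_cast e5
    nlinarith
  refine ⟨𝒩 \ ℬ, ?_, ?_⟩
  · have e1 : (𝒩.card : ℝ) ≤ ((𝒩 \ ℬ).card : ℝ) + ℬ.card := by
      have := card_le_card_sdiff_add_card (s := 𝒩) (t := ℬ)
      exact_mod_cast this
    have e2 : X ^ (1 - 1 / l2 ^ B : ℝ) = Real.exp (l1 - l1 / l2 ^ B) := by
      rw [Real.rpow_def_of_pos hX0, ← hl1]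
      congr 1
      ring
    rw [e2]
    rw [h𝒩c] at e1
    linarith
  · intro n hn
    rw [Finset.mem_sdiff, h𝒩, Finset.mem_image, h𝒳] at hn
    obtain ⟨⟨x, hx, rfl⟩, hnℬ⟩ := hn
    rw [mem_filter, mem_Ioc] at hx
    obtain ⟨⟨hx1, hx2⟩, hxS⟩ := hx
    have hx1' : ((M : ℝ) - W - b1) / Q < x := by
      have : (A' : ℝ) + 1 ≤ x := by exact_mod_cast hx1
      linarith
    have hx2' : (x : ℝ) ≤ ((M : ℝ) + X - W - b1) / Q := by
      have : (x : ℝ) ≤ B' := by exact_mod_cast hx2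
      linarith
    rw [div_lt_iff₀ hQR] at hx1'
    rw [le_div_iff₀ hQR] at hx2'
    have hcong : ∀ p : ℕ, p.Prime → (p : ℝ) ≤ y → ¬ p ∣ D → (p : ℤ) ∣ ((b1 : ℤ) + Q * x) - cl p := by
      intro p hp hpy hpD
      have h1 : (p : ℤ) ∣ (P : ℤ) := by exact_mod_cast hPdvd p hp hpy hpD
      have h2 : (p : ℤ) ∣ (b0 : ℤ) - (cl p : ℤ) :=
        Nat.modEq_iff_dvd.mp (hb0' p hp (Nat.le_floor hpy)).symm
      have h3 : (p : ℤ) ∣ (b1 : ℤ) - b0 := h1.trans (Nat.modEq_iff_dvd.mp hb1.symm)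
      have h4 : (p : ℤ) ∣ (Q : ℤ) * x := by
        rw [hQ]
        push_cast
        exact (h1.mul_right _).mul_right _
      have e : ((b1 : ℤ) + Q * x) - cl p = ((b1 : ℤ) - b0) + ((b0 : ℤ) - cl p) + Q * x := by ring
      rw [e]
      exact dvd_add (dvd_add h3 h2) h4
    refine ⟨⟨?_, ?_, ?_⟩, fun z hz => ?_⟩
    · have h1 : (M : ℝ) < ((b1 + Q * x + W : ℤ) : ℝ) := by
        push_cast
        linarith
      exact_mod_cast h1
    · push_cast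
      linarith
    · have h1 : (D : ℤ) ∣ (b1 : ℤ) - (r + (D - 1) * W : ℕ) := Nat.modEq_iff_dvd.mp hb2.symm
      have h2 : (D : ℤ) ∣ (Q : ℤ) * x := by
        rw [hQ]
        push_cast
        exact (dvd_mul_left _ _).mul_right _
      have h3 : ((r + (D - 1) * W : ℕ) : ℤ) = r + (D : ℤ) * W - W := by
        push_cast
        rw [Nat.cast_sub (by omega)]
        push_cast
        ring
      rw [h3] at h1
      have e : (b1 : ℤ) + Q * x + W - r = ((b1 : ℤ) - (r + D * W - W)) + Q * x + D * W := by ring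
      rw [e]
      exact dvd_add (dvd_add h1 h2) (dvd_mul_right _ _)
    · have hzW := abs_le.1 (hZW z hz)
      obtain ⟨k, hk⟩ : ∃ k : ℕ, k = (z + (W : ℤ)).toNat := ⟨_, rfl⟩
      have hkz : (k : ℤ) = z + W := by rw [hk]; omega
      have hkT : k ∈ T := by
        rw [hT, Finset.mem_image]
        exact ⟨z, hz, hk.symm⟩
      have e1 : (b1 : ℤ) + Q * x + W + z = b1 + Q * x + k := by rw [hkz]; ring
      have hlarge : Y < |(((b1 : ℤ) + Q * x + W + z : ℤ) : ℝ)| := by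
        by_contra hcon
        push Not at hcon
        apply hnℬ
        rw [hℬ, mem_biUnion]
        refine ⟨z, hz, ?_⟩
        have h1 : ((((b1 : ℤ) + Q * x + W + z).natAbs : ℕ) : ℝ) ≤ Y := by
          rw [Nat.cast_natAbs, Int.cast_abs]
          exact hcon
        have h2 := Nat.le_floor h1
        rw [mem_Icc]
        omega
      rw [e1] at hlarge ⊢
      -- it suffices to find a prime up to `Y`
      have hsuff : (∃ p : ℕ, p.Prime ∧ (p : ℝ) ≤ Y ∧ (p : ℤ) ∣ (b1 : ℤ) + Q * x + k) →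
          ∃ p : ℕ, p.Prime ∧ (p : ℝ) ≤ Y ∧ (p : ℤ) ∣ (b1 : ℤ) + Q * x + k ∧
            (p : ℤ) < |(b1 : ℤ) + Q * x + k| := by
        rintro ⟨p, h1, h2, h3⟩
        refine ⟨p, h1, h2, h3, ?_⟩
        have h4 : ((p : ℤ) : ℝ) < ((|(b1 : ℤ) + Q * x + k| : ℤ) : ℝ) := by
          rw [Int.cast_abs]
          push_cast at hlarge ⊢
          linarith
        exact_mod_cast h4
      apply hsuff
      have hyY : y ≤ Y := by
        rw [hYe]
        have h1 := Real.add_one_le_exp (l1 / 100)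
        have h2 : y ≤ l1 / 100 := by
          rw [hy]
          have h3 : l2 ≤ l2 ^ (B + 1) := le_self_pow₀ (by linarith) (by omega)
          rw [div_le_div_iff₀ (by positivity) (by norm_num)]
          apply mul_le_mul_of_nonneg_left _ hl10.le
          linarith
        linarith
      by_cases hk2 : k ∈ T₂
      · obtain ⟨p, hp1, hp2, hp3, hp4⟩ := hxS ⟨k, hk2⟩
        refine ⟨p, hp1, ?_, ?_⟩
        · refine hp3.trans ?_
          rw [hYe]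
          apply Real.exp_le_exp.2
          rw [← hl1, div_le_div_iff₀ (by positivity) (by norm_num)]
          nlinarith
        · have h1 := hres p ⟨k, hk2⟩ hp1 hp2
          have e2 : (b1 : ℤ) + Q * x + k = Q * (x - res p ⟨k, hk2⟩) + (Q * res p ⟨k, hk2⟩ + (b1 + k)) := by ring
          rw [e2]
          exact dvd_add (hp4.mul_left _) h1
      · rw [hT₂, Finset.mem_filter] at hk2
        push Not at hk2
        by_cases hmed : ∀ p : ℕ, p.Prime → V1 y < Real.log p → (p : ℝ) ≤ y →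
          ¬ (p : ℤ) ∣ (k : ℤ) - s
        · obtain ⟨p, hp1, hp2, hp3, hp4⟩ := hk2 hkT hmed
          have hp0 : (0 : ℝ) < p := by exact_mod_cast hp1.pos
          have hpy : (p : ℝ) ≤ y := by
            have h1 : Real.log p ≤ Real.log y := by linarith
            exact (Real.log_le_log_iff hp0 (by linarith)).1 h1
          have h1 := hcong p hp1 hpy hp3
          have h2 : cl p = b p := by rw [hcl]; exact if_pos hp2
          rw [h2] at h1
          have h3 : (p : ℤ) ∣ (b p : ℤ) + k := by exact_mod_cast hp4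
          have h4 := dvd_add h1 h3
          have e : ((b1 : ℤ) + Q * x) - b p + ((b p : ℤ) + k) = (b1 : ℤ) + Q * x + k := by ring
          rw [e] at h4
          exact ⟨p, hp1, hpy.trans hyY, h4⟩
        · push Not at hmed
          obtain ⟨p, hp1, hp2, hp3, hp4⟩ := hmed
          have hp0 : (0 : ℝ) < p := by exact_mod_cast hp1.pos
          have hpD : ¬ p ∣ D := by
            intro h
            have h1 := Nat.le_of_dvd hD h
            have h2 : (p : ℝ) ≤ D := by exact_mod_cast h1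
            have h3 := Real.log_le_sub_one_of_pos hp0
            linarith
          have h1 := hcong p hp1 hp3 hpD
          have h2 : cl p = ((-(s : ℤ)) % (p : ℤ)).toNat := by
            rw [hcl]; exact if_neg (not_le.mpr hp2)
          have h3 : (p : ℤ) ∣ (cl p : ℤ) - (-(s : ℤ)) := by
            rw [h2]; exact toNat_mod _ p hp1.pos
          have h4 := dvd_add (dvd_add h1 h3) hp4
          have e : ((b1 : ℤ) + Q * x) - cl p + ((cl p : ℤ) - -(s : ℤ)) + ((k : ℤ) - s) = (b1 : ℤ) + Q * x + k := by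
            ring
          rw [e] at h4
          exact ⟨p, hp1, hp3.trans hyY, h4⟩

end Pool.Agent.K7.H61.RF
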